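import Pool.Agent.H62.UN.Targets

/-! MP_8b378c_ag: board unt_modules, row FRA. -/

set_option autoImplicit false

namespace Pool.Agent.H20.UNT

open Polynomial Pool.Agent.H17.UN Pool.Agent.H62.UN

theorem fra_top {k F : Type} [Field k] [Field F] [Algebra k F] (s y z x' y' z' : F)
    (h : IntermediateField.adjoin k {s, y, z} = ⊤)
    (hs : s ∈ IntermediateField.adjoin k {x', y', z'})
    (hy : y ∈ IntermediateField.adjoin k {x', y', z'})
    (hz : z ∈ IntermediateField.adjoin k {x', y', z'}) :
    IntermediateField.adjoin k {x', y', z'} = ⊤ := by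
  rw [eq_top_iff, ← h, IntermediateField.adjoin_le_iff]
  rintro w (rfl | rfl | rfl)
  · exact hs
  · exact hy
  · exact hz

/-- FRA. -/
theorem pf_FRA : F_FRA := by
  intro hNOE k F _ _ _ P Q s y z hCB i
  have hs0 : s ≠ 0 := hCB.ind.ne_zero 0
  have hz0 : z ≠ 0 := hCB.ind.ne_zero 1
  have hmem : ∀ x' y' z' : F, x' ∈ IntermediateField.adjoin k {x', y', z'} ∧
      y' ∈ IntermediateField.adjoin k {x', y', z'} ∧
      z' ∈ IntermediateField.adjoin k {x', y', z'} := by
    intro x' y' z'
    exact ⟨IntermediateField.subset_adjoin k _ (Or.inl rfl),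
      IntermediateField.subset_adjoin k _ (Or.inr (Or.inl rfl)),
      IntermediateField.subset_adjoin k _ (Or.inr (Or.inr rfl))⟩
  have key : ∀ x' y' z' : F, IntermediateField.adjoin k {x', y', z'} = ⊤ →
      Frc (Algebra.adjoin k {x', y', z'}) := by
    intro x' y' z' h
    exact (hNOE k F x' y' z' h).2
  have hall : Frc (ch k s y z i) := by
    fin_cases i
    · exact key s y z hCB.gen
    · refine key s (y / z) z⁻¹ ?_
      obtain ⟨h1, h2, h3⟩ := hmem s (y / z) z⁻¹
      have hz : z ∈ IntermediateField.adjoin k {s, y / z, z⁻¹} := by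
        have := inv_mem h3
        rwa [inv_inv] at this
      refine fra_top s y z _ _ _ hCB.gen h1 ?_ hz
      have := mul_mem h2 hz
      rwa [div_mul_cancel₀ _ hz0] at this
    · refine key s⁻¹ (y / s ^ 2) (z / s) ?_
      obtain ⟨h1, h2, h3⟩ := hmem s⁻¹ (y / s ^ 2) (z / s)
      have hs : s ∈ IntermediateField.adjoin k {s⁻¹, y / s ^ 2, z / s} := by
        have := inv_mem h1
        rwa [inv_inv] at this
      refine fra_top s y z _ _ _ hCB.gen hs ?_ ?_
      · have := mul_mem h2 (pow_mem hs 2)
        rwa [div_mul_cancel₀ _ (pow_ne_zero 2 hs0)] at this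
      · have := mul_mem h3 hs
        rwa [div_mul_cancel₀ _ hs0] at this
    · refine key s⁻¹ (y / (s * z)) (s / z) ?_
      obtain ⟨h1, h2, h3⟩ := hmem s⁻¹ (y / (s * z)) (s / z)
      have hs : s ∈ IntermediateField.adjoin k {s⁻¹, y / (s * z), s / z} := by
        have := inv_mem h1
        rwa [inv_inv] at this
      have hz : z ∈ IntermediateField.adjoin k {s⁻¹, y / (s * z), s / z} := by
        have := div_mem hs h3
        rwa [div_div_cancel₀ hs0] at this
      refine fra_top s y z _ _ _ hCB.gen hs ?_ hz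
      have := mul_mem h2 (mul_mem hs hz)
      rwa [div_mul_cancel₀ _ (mul_ne_zero hs0 hz0)] at this
  exact hall

end Pool.Agent.H20.UNT
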