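import Pool.Agent.H62.UN.Targets

/-! MP_8b378c_ag: board unt_modules, row HCL. -/

set_option autoImplicit false

namespace Pool.Agent.H20.UNT

open Polynomial Pool.Agent.H17.UN Pool.Agent.H62.UN

section Val

variable {E : Type} [Field E] {o : E → ℤ} (ho : IsVal o)

include ho

theorem hcl_one : o 1 = 0 := by
  have h := ho.mul 1 1 one_ne_zero one_ne_zero
  rw [one_mul] at h
  omega

theorem hcl_neg (x : E) : o (-x) = o x := by
  by_cases hx : x = 0
  · rw [hx, neg_zero]
  have h1 := ho.mul (-1) (-1) (neg_ne_zero.mpr one_ne_zero) (neg_ne_zero.mpr one_ne_zero)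
  rw [neg_mul_neg, one_mul, hcl_one ho] at h1
  have h2 := ho.mul (-1) x (neg_ne_zero.mpr one_ne_zero) hx
  rw [neg_one_mul] at h2
  omega

theorem hcl_pow (x : E) (hx : x ≠ 0) (n : ℕ) : o (x ^ n) = n * o x := by
  induction n with
  | zero => rw [pow_zero, hcl_one ho, Nat.cast_zero, zero_mul]
  | succ n ih =>
    rw [pow_succ, ho.mul _ _ (pow_ne_zero n hx) hx, ih]
    push_cast
    ring

theorem hcl_div (a b : E) (ha : a ≠ 0) (hb : b ≠ 0) : o (a / b) = o a - o b := by
  have h := ho.mul (a / b) b (div_ne_zero ha hb) hb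
  rw [div_mul_cancel₀ _ hb] at h
  omega

theorem hcl_nn (a b : E) (ha : 0 ≤ o a) (hb : 0 ≤ o b) : 0 ≤ o (a + b) := by
  by_cases ha0 : a = 0
  · rw [ha0, zero_add]; exact hb
  by_cases hb0 : b = 0
  · rw [hb0, add_zero]; exact ha
  by_cases hab : a + b = 0
  · rw [hab, ho.zero]
  exact (le_min ha hb).trans (ho.add a b ha0 hb0 hab)

theorem hcl_mul_nn (a b : E) (ha : 0 ≤ o a) (hb : 0 ≤ o b) : 0 ≤ o (a * b) := by
  by_cases ha0 : a = 0
  · rw [ha0, zero_mul, ho.zero]
  by_cases hb0 : b = 0
  · rw [hb0, mul_zero, ho.zero]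
  rw [ho.mul a b ha0 hb0]
  omega

theorem hcl_strict (a b : E) (ha : a ≠ 0) (hb : b ≠ 0) (h : o a < o b) :
    a + b ≠ 0 ∧ o (a + b) = o a := by
  have hab : a + b ≠ 0 := by
    intro h0
    rw [eq_neg_of_add_eq_zero_left h0, hcl_neg ho] at h
    exact lt_irrefl _ h
  refine ⟨hab, ?_⟩
  have h1 := ho.add a b ha hb hab
  rw [min_eq_left h.le] at h1
  have h2 := ho.add (a + b) (-b) hab (neg_ne_zero.mpr hb) (by rwa [add_neg_cancel_right])
  rw [add_neg_cancel_right, hcl_neg ho] at h2
  rcases min_le_iff.mp h2 with h3 | h3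
  · omega
  · omega

end Val

/-- HCL. -/
theorem pf_HCL : T_HCL := by
  classical
  intro κ E _ _ _ τ hτ htop o ho hc
  have hinj : Function.Injective (aeval τ : κ[X] → E) := transcendental_iff_injective.mp hτ
  have hne : ∀ g : κ[X], g ≠ 0 → aeval τ g ≠ 0 := by
    intro g hg h0
    exact hg (hinj (by rw [h0, map_zero]))
  have hτ0 : τ ≠ 0 := by
    have := hne X X_ne_zero
    rwa [aeval_X] at this
  have hfrac : ∀ x : E, x ≠ 0 → ∃ g h : κ[X], g ≠ 0 ∧ h ≠ 0 ∧ x = aeval τ g / aeval τ h := by
    intro x hx0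
    have hx : x ∈ IntermediateField.adjoin κ {τ} := by rw [htop]; trivial
    rw [IntermediateField.mem_adjoin_simple_iff] at hx
    obtain ⟨r, s, hrs⟩ := hx
    refine ⟨r, s, ?_, ?_, hrs⟩
    · rintro rfl
      rw [map_zero, zero_div] at hrs
      exact hx0 hrs
    · rintro rfl
      rw [map_zero, div_zero] at hrs
      exact hx0 hrs
  obtain ⟨e, he⟩ := ho.norm
  have he0 : e ≠ 0 := by
    rintro rfl
    rw [ho.zero] at he
    exact zero_ne_one he
  obtain ⟨ge, he', hge, hhe, hegh⟩ := hfrac e he0
  rcases le_or_gt 0 (o τ) with hpos | hneg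
  · left
    have hnn : ∀ g : κ[X], 0 ≤ o (aeval τ g) := by
      intro g
      induction g using Polynomial.induction_on' with
      | add p q hp hq => rw [map_add]; exact hcl_nn ho _ _ hp hq
      | monomial n a =>
        rw [aeval_monomial]
        refine hcl_mul_nn ho _ _ (hc a).ge ?_
        rw [hcl_pow ho τ hτ0 n]
        positivity
    have hex : ∃ n : ℕ, ∃ g : κ[X], g ≠ 0 ∧ 0 < o (aeval τ g) ∧ g.natDegree = n := by
      by_contra hno
      push Not at hno
      have hz : ∀ g : κ[X], g ≠ 0 → o (aeval τ g) = 0 := by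
        intro g hg
        by_contra h1
        exact hno g.natDegree g hg (lt_of_le_of_ne (hnn g) (Ne.symm h1)) rfl
      rw [hegh, hcl_div ho _ _ (hne _ hge) (hne _ hhe), hz _ hge, hz _ hhe] at he
      omega
    obtain ⟨π', hπ'0, hπ'pos, hπ'deg⟩ := Nat.find_spec hex
    have hlc : π'.leadingCoeff⁻¹ ≠ 0 := inv_ne_zero (leadingCoeff_ne_zero.mpr hπ'0)
    obtain ⟨π, hπ⟩ : ∃ π : κ[X], π = C π'.leadingCoeff⁻¹ * π' := ⟨_, rfl⟩
    have hπm : π.Monic := by
      rw [hπ, mul_comm]
      exact monic_mul_leadingCoeff_inv hπ'0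
    have hπ0 : π ≠ 0 := hπm.ne_zero
    have hdeg : π.natDegree = Nat.find hex := by
      rw [hπ, natDegree_C_mul hlc, hπ'deg]
    have hpos' : 0 < o (aeval τ π) := by
      rw [hπ, map_mul, aeval_C, ho.mul _ _ ?_ (hne _ hπ'0), hc, zero_add]
      · exact hπ'pos
      · exact (_root_.map_ne_zero _).mpr hlc
    have hmin : ∀ g : κ[X], g ≠ 0 → 0 < o (aeval τ g) → π.natDegree ≤ g.natDegree := by
      intro g hg hgp
      rw [hdeg]
      exact Nat.find_min' hex ⟨g, hg, hgp, rfl⟩
    have hnd : ∀ g : κ[X], ¬ π ∣ g → o (aeval τ g) = 0 := by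
      intro g hg
      by_contra h1
      have h2 : 0 < o (aeval τ g) := lt_of_le_of_ne (hnn g) (Ne.symm h1)
      have h3 : g %ₘ π ≠ 0 := by
        intro h0
        exact hg ((modByMonic_eq_zero_iff_dvd hπm).mp h0)
      have h4 : g %ₘ π = g - π * (g /ₘ π) := by
        have := modByMonic_add_div g π
        exact eq_sub_of_add_eq this
      have hg0 : g ≠ 0 := by
        rintro rfl
        exact hg (dvd_zero _)
      have h5 : 0 < o (aeval τ (g %ₘ π)) := by
        rw [h4]
        by_cases hq : g /ₘ π = 0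
        · rw [hq, mul_zero, sub_zero]; exact h2
        · have h6 : 0 < o (aeval τ (π * (g /ₘ π))) := by
            rw [map_mul, ho.mul _ _ (hne _ hπ0) (hne _ hq)]
            have := hnn (g /ₘ π)
            omega
          have h7 : aeval τ g + -aeval τ (π * (g /ₘ π)) ≠ 0 := by
            rw [← sub_eq_add_neg, ← map_sub, ← h4]
            exact hne _ h3
          rw [map_sub, sub_eq_add_neg]
          refine lt_of_lt_of_le ?_ (ho.add _ _ (hne _ hg0)
            (neg_ne_zero.mpr (hne _ (mul_ne_zero hπ0 hq))) h7)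
          rw [hcl_neg ho]
          exact lt_min h2 h6
      have h8 := hmin _ h3 h5
      have h9 : π ≠ 1 := by
        rintro rfl
        exact hg (one_dvd g)
      have h10 := natDegree_modByMonic_lt g hπm h9
      omega
    have hirr : Irreducible π := by
      refine ⟨?_, ?_⟩
      · intro hu
        have h1 : π = 1 := by
          rw [← hπm.isUnit_iff]
          exact hu
        rw [h1, map_one, hcl_one ho] at hpos'
        exact lt_irrefl _ hpos'
      · intro a b hab
        have ha0 : a ≠ 0 := by
          rintro rfl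
          rw [zero_mul] at hab
          exact hπ0 hab
        have hb0 : b ≠ 0 := by
          rintro rfl
          rw [mul_zero] at hab
          exact hπ0 hab
        have h1 : 0 < o (aeval τ a) + o (aeval τ b) := by
          rw [← ho.mul _ _ (hne _ ha0) (hne _ hb0), ← map_mul, ← hab]
          exact hpos'
        have h2 : π.natDegree = a.natDegree + b.natDegree := by
          rw [hab, natDegree_mul ha0 hb0]
        have hunit : ∀ c : κ[X], c ≠ 0 → c.natDegree = 0 → IsUnit c := by
          intro c hc0 hc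
          rw [Polynomial.isUnit_iff_degree_eq_zero, degree_eq_natDegree hc0, hc]
          rfl
        rcases lt_or_ge 0 (o (aeval τ a)) with h3 | h3
        · right
          have := hmin a ha0 h3
          exact hunit b hb0 (by omega)
        · left
          have := hmin b hb0 (by omega)
          exact hunit a ha0 (by omega)
    have hval : ∀ (n : ℕ) (g : κ[X]), ¬ π ∣ g →
        o (aeval τ (π ^ n * g)) = n * o (aeval τ π) := by
      intro n g hg
      have hg0 : g ≠ 0 := by
        rintro rfl
        exact hg (dvd_zero _)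
      rw [map_mul, map_pow, ho.mul _ _ (pow_ne_zero n (hne _ hπ0)) (hne _ hg0),
        hcl_pow ho _ (hne _ hπ0), hnd g hg, add_zero]
    have hval' : ∀ g : κ[X], g ≠ 0 → ∃ n : ℕ, o (aeval τ g) = n * o (aeval τ π) := by
      intro g hg
      obtain ⟨c, hc1, hc2⟩ :=
        (FiniteMultiplicity.of_prime_left hirr.prime hg).exists_eq_pow_mul_and_not_dvd
      refine ⟨multiplicity π g, ?_⟩
      conv_lhs => rw [hc1]
      exact hval _ c hc2
    have hN : o (aeval τ π) = 1 := by
      obtain ⟨n1, hn1⟩ := hval' ge hge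
      obtain ⟨n2, hn2⟩ := hval' he' hhe
      rw [hegh, hcl_div ho _ _ (hne _ hge) (hne _ hhe), hn1, hn2, ← sub_mul] at he
      have h1 : o (aeval τ π) ∣ 1 := ⟨(n1 : ℤ) - n2, by rw [mul_comm]; exact he.symm⟩
      exact Int.eq_one_of_dvd_one hpos'.le h1
    refine ⟨π, hπm, hirr, ?_⟩
    intro n g hg
    rw [hval n g hg, hN, mul_one]
  · right
    have hval : ∀ (n : ℕ) (g : κ[X]), g ≠ 0 → g.natDegree = n → o (aeval τ g) = n * o τ := by
      intro n
      induction n using Nat.strong_induction_on with
      | _ n ih =>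
        intro g hg hn
        have hlc0 : algebraMap κ E g.leadingCoeff ≠ 0 :=
          (_root_.map_ne_zero _).mpr (leadingCoeff_ne_zero.mpr hg)
        have hmono : aeval τ (monomial g.natDegree g.leadingCoeff) =
            algebraMap κ E g.leadingCoeff * τ ^ g.natDegree := aeval_monomial τ
        have hmono0 : aeval τ (monomial g.natDegree g.leadingCoeff) ≠ 0 := by
          rw [hmono]
          exact mul_ne_zero hlc0 (pow_ne_zero _ hτ0)
        have hmonoval : o (aeval τ (monomial g.natDegree g.leadingCoeff)) = n * o τ := by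
          rw [hmono, ho.mul _ _ hlc0 (pow_ne_zero _ hτ0), hc, zero_add, hcl_pow ho τ hτ0, hn]
        have hel : g.eraseLead + monomial g.natDegree g.leadingCoeff = g :=
          eraseLead_add_monomial_natDegree_leadingCoeff g
        by_cases h0 : g.eraseLead = 0
        · rw [h0, zero_add] at hel
          rw [← hmonoval, hel]
        · have hlt : g.eraseLead.natDegree < g.natDegree := by
            rcases eraseLead_natDegree_lt_or_eraseLead_eq_zero g with h1 | h1
            · exact h1
            · exact absurd h1 h0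
          have h2 := ih g.eraseLead.natDegree (by omega) g.eraseLead h0 rfl
          have h3 : o (aeval τ (monomial g.natDegree g.leadingCoeff)) < o (aeval τ g.eraseLead) := by
            rw [hmonoval, h2]
            have h4 : (g.eraseLead.natDegree : ℤ) < n := by
              rw [← hn]; exact_mod_cast hlt
            nlinarith
          have h5 := (hcl_strict ho _ _ hmono0 (hne _ h0) h3).2
          rw [← map_add, add_comm, hel, hmonoval] at h5
          exact h5
    have hN : o τ = -1 := by
      have h1 := hval _ ge hge rfl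
      have h2 := hval _ he' hhe rfl
      rw [hegh, hcl_div ho _ _ (hne _ hge) (hne _ hhe), h1, h2, ← sub_mul] at he
      have h3 : -o τ ∣ 1 := by
        rw [neg_dvd]
        exact ⟨(ge.natDegree : ℤ) - he'.natDegree, by rw [mul_comm]; exact he.symm⟩
      have h4 := Int.eq_one_of_dvd_one (by omega) h3
      omega
    intro g hg
    rw [hval _ g hg rfl, hN]
    ring

end Pool.Agent.H20.UNT
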