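import Pool.Agent.H62.UN.Targets

/-! MP_8b378c_ag: board unt_modules, row HEX. -/

set_option autoImplicit false

namespace Pool.Agent.H20.UNT

open Polynomial Pool.Agent.H17.UN Pool.Agent.H62.UN

/-- extension of a valuation to the field of fractions -/
theorem hex_extend {R E : Type} [CommRing R] [IsDomain R] [Field E] (j : R →+* E)
    (hj : Function.Injective j) (hfrac : ∀ x : E, ∃ g h : R, h ≠ 0 ∧ x = j g / j h)
    (ν : R → ℤ) (hmul : ∀ a b, a ≠ 0 → b ≠ 0 → ν (a * b) = ν a + ν b)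
    (hadd : ∀ a b, a ≠ 0 → b ≠ 0 → a + b ≠ 0 → min (ν a) (ν b) ≤ ν (a + b)) :
    ∃ o : E → ℤ, o 0 = 0 ∧ (∀ g h, g ≠ 0 → h ≠ 0 → o (j g / j h) = ν g - ν h) ∧
      (∀ a b, a ≠ 0 → b ≠ 0 → o (a * b) = o a + o b) ∧
      (∀ a b, a ≠ 0 → b ≠ 0 → a + b ≠ 0 → min (o a) (o b) ≤ o (a + b)) := by
  classical
  have hj0 : ∀ g : R, g ≠ 0 → j g ≠ 0 := fun g hg h => hg ((map_eq_zero_iff j hj).mp h)
  choose num den hden hnd using hfrac
  have hnum : ∀ x : E, x ≠ 0 → num x ≠ 0 := by
    intro x hx h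
    apply hx
    rw [hnd x, h, map_zero, zero_div]
  let o : E → ℤ := fun x => if x = 0 then 0 else ν (num x) - ν (den x)
  have ho : ∀ x, x ≠ 0 → o x = ν (num x) - ν (den x) := fun x hx => if_neg hx
  have hval : ∀ g h, g ≠ 0 → h ≠ 0 → o (j g / j h) = ν g - ν h := by
    intro g h hg hh
    have hx : j g / j h ≠ 0 := div_ne_zero (hj0 g hg) (hj0 h hh)
    rw [ho _ hx]
    have h1 := hnd (j g / j h)
    set n := num (j g / j h) with hn
    set d := den (j g / j h) with hd
    have hn0 : n ≠ 0 := hnum _ hx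
    have hd0 : d ≠ 0 := hden _
    rw [div_eq_div_iff (hj0 h hh) (hj0 d hd0), ← map_mul, ← map_mul] at h1
    have h2 := hj h1
    have h3 := congrArg ν h2
    rw [hmul g d hg hd0, hmul n h hn0 hh] at h3
    omega
  refine ⟨o, if_pos rfl, hval, ?_, ?_⟩
  · intro a b ha hb
    obtain ⟨g, h, hg, hh, rfl⟩ : ∃ g h, g ≠ 0 ∧ h ≠ 0 ∧ a = j g / j h :=
      ⟨num a, den a, hnum a ha, hden a, hnd a⟩
    obtain ⟨g', h', hg', hh', rfl⟩ : ∃ g h, g ≠ 0 ∧ h ≠ 0 ∧ b = j g / j h :=
      ⟨num b, den b, hnum b hb, hden b, hnd b⟩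
    rw [div_mul_div_comm, ← map_mul, ← map_mul, hval _ _ (mul_ne_zero hg hg')
      (mul_ne_zero hh hh'), hval _ _ hg hh, hval _ _ hg' hh', hmul _ _ hg hg', hmul _ _ hh hh']
    ring
  · intro a b ha hb hab
    obtain ⟨g, h, hg, hh, rfl⟩ : ∃ g h, g ≠ 0 ∧ h ≠ 0 ∧ a = j g / j h :=
      ⟨num a, den a, hnum a ha, hden a, hnd a⟩
    obtain ⟨g', h', hg', hh', rfl⟩ : ∃ g h, g ≠ 0 ∧ h ≠ 0 ∧ b = j g / j h :=
      ⟨num b, den b, hnum b hb, hden b, hnd b⟩
    rw [div_add_div _ _ (hj0 h hh) (hj0 h' hh'), ← map_mul, ← map_mul, ← map_mul, ← map_add]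
      at hab ⊢
    have hne : g * h' + h * g' ≠ 0 := by
      intro h0
      apply hab
      rw [h0, map_zero, zero_div]
    rw [hval _ _ hne (mul_ne_zero hh hh'), hval _ _ hg hh, hval _ _ hg' hh', hmul _ _ hh hh']
    have h1 := hadd (g * h') (h * g') (mul_ne_zero hg hh') (mul_ne_zero hh hg') hne
    rw [hmul _ _ hg hh', hmul _ _ hh hg'] at h1
    rcases min_le_iff.mp h1 with h2 | h2
    · exact (min_le_left _ _).trans (by linarith)
    · exact (min_le_right _ _).trans (by linarith)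

/-- HEX. -/
theorem pf_HEX : T_HEX := by
  classical
  intro κ E _ _ _ τ hτ htop
  have hj : Function.Injective (aeval τ : κ[X] →ₐ[κ] E).toRingHom :=
    transcendental_iff_injective.mp hτ
  have hfrac : ∀ x : E, ∃ g h : κ[X], h ≠ 0 ∧
      x = (aeval τ : κ[X] →ₐ[κ] E).toRingHom g / (aeval τ : κ[X] →ₐ[κ] E).toRingHom h := by
    intro x
    have hx : x ∈ IntermediateField.adjoin κ {τ} := by rw [htop]; trivial
    rw [IntermediateField.mem_adjoin_simple_iff] at hx
    obtain ⟨r, s, hrs⟩ := hx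
    by_cases hs : s = 0
    · refine ⟨0, 1, one_ne_zero, ?_⟩
      rw [hrs, hs, map_zero, div_zero, map_zero, zero_div]
    · exact ⟨r, s, hs, hrs⟩
  refine ⟨?_, ?_⟩
  · intro π _ hπ
    have hp := hπ.prime
    have hfm : ∀ a : κ[X], a ≠ 0 → FiniteMultiplicity π a := fun a ha =>
      FiniteMultiplicity.of_prime_left hp ha
    obtain ⟨o, h0, hval, hmul, hadd⟩ := hex_extend (aeval τ : κ[X] →ₐ[κ] E).toRingHom hj hfrac
      (fun g => (multiplicity π g : ℤ)) (by
        intro a b ha hb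
        rw [multiplicity_mul hp (hfm _ (mul_ne_zero ha hb))]
        push_cast
        rfl) (by
        intro a b ha hb hab
        rw [← Nat.cast_min, Nat.cast_le]
        refine (hfm _ hab).le_multiplicity_of_pow_dvd ?_
        exact dvd_add ((pow_dvd_pow π (min_le_left _ _)).trans (pow_multiplicity_dvd π a))
          ((pow_dvd_pow π (min_le_right _ _)).trans (pow_multiplicity_dvd π b)))
    have hpl : IsPl τ π o := by
      intro n g hg
      have hg0 : g ≠ 0 := by
        rintro rfl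
        exact hg (dvd_zero _)
      have h1 := hval (π ^ n * g) 1 (mul_ne_zero (pow_ne_zero n hp.ne_zero) hg0) one_ne_zero
      rw [map_one, div_one] at h1
      have h2 : multiplicity π (1 : κ[X]) = 0 :=
        multiplicity_eq_zero.mpr (fun h => hp.not_isUnit (isUnit_of_dvd_one h))
      have h3 : multiplicity π (π ^ n * g) = n := by
        rw [multiplicity_mul hp (hfm _ (mul_ne_zero (pow_ne_zero n hp.ne_zero) hg0)),
          multiplicity_pow_self_of_prime hp, multiplicity_eq_zero.mpr hg, add_zero]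
      rw [h2, h3] at h1
      rw [Nat.cast_zero, sub_zero] at h1
      exact h1
    refine ⟨o, ⟨h0, hmul, hadd, aeval τ π, ?_⟩, hpl⟩
    have h1 := hpl 1 1 (fun h => hp.not_isUnit (isUnit_of_dvd_one h))
    rw [pow_one, mul_one] at h1
    rw [h1]
    rfl
  · obtain ⟨o, h0, hval, hmul, hadd⟩ := hex_extend (aeval τ : κ[X] →ₐ[κ] E).toRingHom hj hfrac
      (fun g => -(g.natDegree : ℤ)) (by
        intro a b ha hb
        rw [natDegree_mul ha hb]
        push_cast
        ring) (by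
        intro a b ha hb hab
        have h1 := natDegree_add_le a b
        rcases le_max_iff.mp h1 with h2 | h2
        · exact (min_le_left _ _).trans (by omega)
        · exact (min_le_right _ _).trans (by omega))
    have hinf : IsInf κ τ o := by
      intro g hg
      have h1 := hval g 1 hg one_ne_zero
      rw [map_one, div_one, natDegree_one, Nat.cast_zero, neg_zero, sub_zero] at h1
      exact h1
    refine ⟨o, ⟨h0, hmul, hadd, (aeval τ : κ[X] →ₐ[κ] E).toRingHom 1 /
      (aeval τ : κ[X] →ₐ[κ] E).toRingHom X, ?_⟩, hinf⟩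
    rw [hval 1 X one_ne_zero X_ne_zero, natDegree_one, natDegree_X]
    norm_num

end Pool.Agent.H20.UNT
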