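import Pool.Agent.H62.UN.Targets

/-! MP_8b378c_ag: board unt_modules, row SPN. -/

set_option autoImplicit false

namespace Pool.Agent.H20.UNT

open Polynomial Pool.Agent.H17.UN Pool.Agent.H62.UN

section

variable {k F : Type} [Field k] [Field F] [Algebra k F]

/-- the functions of degree `n` -/
def MM (k : Type) {F : Type} [Field k] [Field F] [Algebra k F] (s y z : F) (n : ℕ) (a : F) :
    Prop := a ∈ ch k s y z 0 ∧ a / z ^ n ∈ ch k s y z 1

theorem aeval_mem (A : Subalgebra k F) (s : F) (hs : s ∈ A) (c : k[X]) : aeval s c ∈ A := by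
  induction c using Polynomial.induction_on' with
  | add p q hp hq => rw [map_add]; exact A.add_mem hp hq
  | monomial n a =>
    rw [aeval_monomial]
    exact A.mul_mem (A.algebraMap_mem a) (A.pow_mem hs n)

variable {s y z : F}

theorem ch0_s : s ∈ ch k s y z 0 := Algebra.subset_adjoin (Or.inl rfl)
theorem ch0_y : y ∈ ch k s y z 0 := Algebra.subset_adjoin (Or.inr (Or.inl rfl))
theorem ch0_z : z ∈ ch k s y z 0 := Algebra.subset_adjoin (Or.inr (Or.inr rfl))
theorem ch1_s : s ∈ ch k s y z 1 := Algebra.subset_adjoin (Or.inl rfl)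
theorem ch1_y : y / z ∈ ch k s y z 1 := Algebra.subset_adjoin (Or.inr (Or.inl rfl))
theorem ch1_z : z⁻¹ ∈ ch k s y z 1 := Algebra.subset_adjoin (Or.inr (Or.inr rfl))

theorem MM_mul {n m : ℕ} {a b : F} (ha : MM k s y z n a) (hb : MM k s y z m b) :
    MM k s y z (n + m) (a * b) := by
  refine ⟨Subalgebra.mul_mem _ ha.1 hb.1, ?_⟩
  have h : a * b / z ^ (n + m) = (a / z ^ n) * (b / z ^ m) := by
    rw [pow_add, div_mul_div_comm]
  rw [h]
  exact Subalgebra.mul_mem _ ha.2 hb.2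

theorem MM_add {n : ℕ} {a b : F} (ha : MM k s y z n a) (hb : MM k s y z n b) :
    MM k s y z n (a + b) := by
  refine ⟨Subalgebra.add_mem _ ha.1 hb.1, ?_⟩
  rw [add_div]
  exact Subalgebra.add_mem _ ha.2 hb.2

theorem MM_sub {n : ℕ} {a b : F} (ha : MM k s y z n a) (hb : MM k s y z n b) :
    MM k s y z n (a - b) := by
  refine ⟨Subalgebra.sub_mem _ ha.1 hb.1, ?_⟩
  rw [sub_div]
  exact Subalgebra.sub_mem _ ha.2 hb.2

theorem MM_smul {n : ℕ} {a : F} (c : k[X]) (ha : MM k s y z n a) :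
    MM k s y z n (aeval s c * a) := by
  refine ⟨Subalgebra.mul_mem _ (aeval_mem _ s ch0_s c) ha.1, ?_⟩
  rw [mul_div_assoc]
  exact Subalgebra.mul_mem _ (aeval_mem _ s ch1_s c) ha.2

theorem MM_zero {n : ℕ} : MM k s y z n 0 := by
  refine ⟨Subalgebra.zero_mem _, ?_⟩
  rw [zero_div]
  exact Subalgebra.zero_mem _

theorem MM_one0 : MM k s y z 0 1 := by
  refine ⟨Subalgebra.one_mem _, ?_⟩
  rw [pow_zero, div_one]
  exact Subalgebra.one_mem _

theorem MM_one : MM k s y z 1 1 := by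
  refine ⟨Subalgebra.one_mem _, ?_⟩
  rw [pow_one, one_div]
  exact ch1_z

theorem MM_y : MM k s y z 1 y := by
  refine ⟨ch0_y, ?_⟩
  rw [pow_one]
  exact ch1_y

theorem MM_z (hz : z ≠ 0) : MM k s y z 1 z := by
  refine ⟨ch0_z, ?_⟩
  rw [pow_one, div_self hz]
  exact Subalgebra.one_mem _

end

/-- SPN. -/
theorem pf_SPN : T_SPN := by
  classical
  intro hKSF k F _ _ _ _ P Q y₀ z₀ s y z τ hT n g hg
  have hz : z ≠ 0 := hT.cb.ind.ne_zero 1
  have htr : Transcendental k s := hT.cb.ind.transcendental 0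
  have hinj : Function.Injective (aeval s : k[X] → F) := transcendental_iff_injective.mp htr
  have hne : ∀ c : k[X], c ≠ 0 → aeval s c ≠ 0 := by
    intro c hc h0
    exact hc (hinj (by rw [h0, map_zero]))
  have hP0 : P ≠ 0 := by
    rintro rfl
    have := hT.cb.dP
    rw [natDegree_zero] at this
    omega
  have hQ0 : Q ≠ 0 := by
    rintro rfl
    have := hT.cb.dQ
    rw [natDegree_zero] at this
    omega
  obtain ⟨q, hq⟩ : ∃ q : F, q = τ ^ 2 - aeval s Q := ⟨_, rfl⟩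
  have heq : aeval s y₀ ^ 2 = aeval s P + aeval s Q * aeval s z₀ ^ 2 := by
    rw [← map_pow, hT.eq, map_add, map_mul, map_pow]
  have hfz := hT.fz
  have hfy := hT.fy
  rw [← hq] at hfz hfy ⊢
  set Y := aeval s y₀ with hY
  set Z := aeval s z₀ with hZ
  set Qs := aeval s Q with hQs
  set Ps := aeval s P with hPs
  -- the basic identities
  set c1 : k[X] := 2 * Q * P with hc1
  have hc1s : aeval s c1 = 2 * Qs * Ps := by
    rw [hc1, map_mul, map_mul]
    rw [map_ofNat]
  have hc10 : c1 ≠ 0 := mul_ne_zero (mul_ne_zero two_ne_zero hQ0) hP0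
  have hτ2 : τ ^ 2 = q + Qs := by rw [hq]; ring
  have hm0 : ∃ m, MM k s y z 1 m ∧ aeval s c1 * 1 = m * q := by
    refine ⟨(aeval s y₀ * y - aeval s (y₀ ^ 2) * 1) -
      (aeval s (Q * z₀) * z - aeval s (Q * z₀ ^ 2) * 1), ?_, ?_⟩
    · exact MM_sub (MM_sub (MM_smul _ MM_y) (MM_smul _ MM_one))
        (MM_sub (MM_smul _ (MM_z hz)) (MM_smul _ MM_one))
    · rw [hc1s, map_mul, map_mul, map_pow, map_pow]
      rw [← hY, ← hZ, ← hQs]
      linear_combination (-Y) * hfy + Qs * Z * hfz - (Y ^ 2 - Qs * Z ^ 2) * hτ2 - 2 * Qs * heq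
  have hm1 : ∃ m, MM k s y z 1 m ∧ aeval s c1 * τ = m * q := by
    refine ⟨(aeval s (Q * y₀) * z - aeval s (Q * y₀ * z₀) * 1) -
      (aeval s (Q * z₀) * y - aeval s (Q * y₀ * z₀) * 1), ?_, ?_⟩
    · exact MM_sub (MM_sub (MM_smul _ (MM_z hz)) (MM_smul _ MM_one))
        (MM_sub (MM_smul _ MM_y) (MM_smul _ MM_one))
    · rw [hc1s, map_mul, map_mul, map_mul, map_mul]
      rw [← hY, ← hZ, ← hQs]
      linear_combination (-Qs * Y) * hfz + Qs * Z * hfy - 2 * Qs * τ * heq
  have hm2 : ∃ m, MM k s y z 1 m ∧ aeval s c1 * τ ^ 2 = m * q := by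
    obtain ⟨m, hm, hmq⟩ := hm0
    refine ⟨aeval s c1 * 1 + aeval s Q * m, MM_add (MM_smul _ MM_one) (MM_smul _ hm), ?_⟩
    rw [← hQs, hτ2]
    linear_combination Qs * hmq
  have hstep : ∀ i : ℕ, i ≤ 2 → ∃ m, MM k s y z 1 m ∧ aeval s c1 * τ ^ i = m * q := by
    intro i hi
    interval_cases i
    · rw [pow_zero]; exact hm0
    · rw [pow_one]; exact hm1
    · exact hm2
  have hpow : ∀ n j : ℕ, j ≤ 2 * n → ∃ m, MM k s y z n m ∧
      aeval s c1 ^ n * τ ^ j = m * q ^ n := by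
    intro n
    induction n with
    | zero =>
      intro j hj
      have : j = 0 := by omega
      subst this
      exact ⟨1, MM_one0, by simp⟩
    | succ n ih =>
      intro j hj
      obtain ⟨m, hm, hmq⟩ := ih (j - min j 2) (by omega)
      obtain ⟨m', hm', hmq'⟩ := hstep (min j 2) (min_le_right _ _)
      refine ⟨m * m', MM_mul hm hm', ?_⟩
      have h1 : τ ^ j = τ ^ (j - min j 2) * τ ^ (min j 2) := by
        rw [← pow_add]
        congr 1
        omega
      rw [h1, pow_succ, pow_succ]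
      calc aeval s c1 ^ n * aeval s c1 * (τ ^ (j - min j 2) * τ ^ min j 2)
          = (aeval s c1 ^ n * τ ^ (j - min j 2)) * (aeval s c1 * τ ^ min j 2) := by ring
        _ = (m * q ^ n) * (m' * q) := by rw [hmq, hmq']
        _ = m * m' * (q ^ n * q) := by ring
  obtain ⟨b, h, hb0, hbs, hdeg, hbh⟩ := (hKSF k F s htr).2 g
  have hj : ∀ j : ℕ, ∃ m, MM k s y z n m ∧ (j ≤ 2 * n → aeval s c1 ^ n * τ ^ j = m * q ^ n) := by
    intro j
    by_cases hj : j ≤ 2 * n
    · obtain ⟨m, hm, hmq⟩ := hpow n j hj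
      exact ⟨m, hm, fun _ => hmq⟩
    · exact ⟨0, MM_zero, fun h => absurd h hj⟩
  choose m hm hmq using hj
  have hsum : ∀ S : Finset ℕ, MM k s y z n (∑ j ∈ S, aeval s (h.coeff j) * m j) := by
    intro S
    induction S using Finset.induction_on with
    | empty => rw [Finset.sum_empty]; exact MM_zero
    | insert a S ha ih =>
      rw [Finset.sum_insert ha]
      exact MM_add (MM_smul _ (hm a)) ih
  refine ⟨b * c1 ^ n, ∑ j ∈ h.support, aeval s (h.coeff j) * m j,
    mul_ne_zero hb0 (pow_ne_zero n hc10), hne _ (mul_ne_zero hb0 (pow_ne_zero n hc10)),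
    (hsum _).1, (hsum _).2, ?_⟩
  have h1 : aeval s (b * c1 ^ n) * aeval τ g = aeval s c1 ^ n * (aeval s b * aeval τ g) := by
    rw [map_mul, map_pow]
    ring
  rw [h1, hbh τ, eval₂_eq_sum, Polynomial.sum_def, Finset.mul_sum, Finset.sum_mul]
  refine Finset.sum_congr rfl fun j hjs => ?_
  have h2 : j ≤ 2 * n := (le_natDegree_of_mem_supp j hjs).trans (hdeg.trans hg)
  have h3 := hmq j h2
  show aeval s c1 ^ n * (aeval s (h.coeff j) * τ ^ j) = _
  linear_combination aeval s (h.coeff j) * h3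

end Pool.Agent.H20.UNT
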